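import Mathlib
import Pool.Agent.Lib.helper11.NullPlasticB

namespace Pool.Agent.Results.MP_fc2771_gt.NotPlastic

/-- every non-expansive bijection is an isometry -/
def IsPlastic (Z : Type) [MetricSpace Z] : Prop :=
  ∀ f : Z → Z, Function.Bijective f → (∀ x y, dist (f x) (f y) ≤ dist x y) →
    ∀ x y, dist (f x) (f y) = dist x y

/-- strictly convex metric space -/
def StrictlyConvex (Z : Type) [MetricSpace Z] : Prop :=
  ∀ (x y : Z) (a b : ℝ), 0 < a → 0 < b → a + b = dist x y → ∃! z, dist x z = a ∧ dist z y = b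

lemma real_sc : StrictlyConvex ℝ := by
  intro x y a b ha hb h
  simp only [Real.dist_eq] at h ⊢
  rcases le_total x y with u | u
  · rw [abs_of_nonpos (by linarith)] at h
    refine ⟨x + a, ⟨by rw [abs_of_nonpos (by linarith)]; ring,
      by rw [abs_of_nonpos (by linarith)]; linarith⟩, fun z ⟨h1, h2⟩ => ?_⟩
    rcases abs_cases (x - z) with e | e <;> rcases abs_cases (z - y) with e' | e' <;> linarith
  · rw [abs_of_nonneg (by linarith)] at h
    refine ⟨x - a, ⟨by rw [abs_of_nonneg (by linarith)]; ring,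
      by rw [abs_of_nonneg (by linarith)]; linarith⟩, fun z ⟨h1, h2⟩ => ?_⟩
    rcases abs_cases (x - z) with e | e <;> rcases abs_cases (z - y) with e' | e' <;> linarith

theorem result :
    (¬ ∀ (G : Type) [AddCommGroup G] [MetricSpace G] [TopologicalSpace.SeparableSpace G],
      (∀ x y z : G, dist (x + z) (y + z) = dist x y) → StrictlyConvex G →
      ∃ H : AddSubgroup G, Dense (H : Set G) ∧ IsSigmaCompact (H : Set G) ∧ IsPlastic H) ∧
    ∀ H : AddSubgroup ℝ, Dense (H : Set ℝ) → IsSigmaCompact (H : Set ℝ) → ¬ IsPlastic H := by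
  have key : ∀ H : AddSubgroup ℝ, Dense (H : Set ℝ) → IsSigmaCompact (H : Set ℝ) →
      ¬ IsPlastic H := by
    intro G hd ha hp
    obtain ⟨f, h1, h2, x, y, h3⟩ :=
      Pool.Agent.Lib.helper11.NullPlastic.not_plastic_sigma G hd ha
    exact h3 (hp f h1 h2 x y)
  refine ⟨fun h => ?_, key⟩
  obtain ⟨G, h1, h2, h3⟩ := h ℝ (fun x y z => dist_add_right x y z) real_sc
  exact key G h1 h2 h3

end Pool.Agent.Results.MP_fc2771_gt.NotPlastic
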